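import Pool.Agent.TH320.EX.Fast

/-!
MP_606be1_nt: for every fixed base `b > 1` the law of Q1 holds, with an error term `O(log x)`, for
all bases `a > 1` outside a set of Hausdorff dimension zero; but for comeagre many `a` it fails,
although `a` and `b` are multiplicatively independent.
-/

set_option autoImplicit false

namespace Pool.Agent.Results.MP_606be1_nt.ExceptionalBases

open Real Filter Set

/-- The pairs of natural numbers `(n, m)` with `|a ^ n - b ^ m| ≤ x`. -/
def pairs (a b x : ℝ) : Set (ℕ × ℕ) := {p | |a ^ p.1 - b ^ p.2| ≤ x}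

/-- Multiplicative independence. -/
def MulIndep (a b : ℝ) : Prop := ∀ i j : ℤ, a ^ i * b ^ j = 1 → i = 0 ∧ j = 0

theorem mulIndep_of_irrational {a b : ℝ} (ha : 1 < a) (hb : 1 < b)
    (h : Irrational (log a / log b)) : MulIndep a b := by
  intro i j hij
  have hla : 0 < log a := log_pos ha
  have hlb : 0 < log b := log_pos hb
  have ha0 : 0 < a := by linarith
  have hb0 : 0 < b := by linarith
  have h1 : (i : ℝ) * log a + j * log b = 0 := by
    have := congrArg log hij
    rwa [log_mul (zpow_ne_zero _ ha0.ne') (zpow_ne_zero _ hb0.ne'), log_zpow, log_zpow,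
      log_one] at this
  by_cases hi : i = 0
  · subst hi
    rw [Int.cast_zero, zero_mul, zero_add, mul_eq_zero] at h1
    refine ⟨rfl, ?_⟩
    rcases h1 with h1 | h1
    · exact_mod_cast h1
    · exact absurd h1 hlb.ne'
  · exfalso
    refine h ⟨-(j : ℚ) / i, ?_⟩
    have hi' : (i : ℝ) ≠ 0 := by exact_mod_cast hi
    push_cast
    rw [div_eq_div_iff hi' hlb.ne']
    linarith

theorem result (b : ℝ) (hb : 1 < b) :
    dimH {a : ℝ | 1 < a ∧ ¬ ∃ C : ℝ, ∀ x : ℝ, 2 ≤ x → (pairs a b x).Finite ∧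
      |((pairs a b x).ncard : ℝ) - log x ^ 2 / (log a * log b)| ≤ C * log x} = 0 ∧
    ∀ f : ℕ → ℝ, (∀ n, 0 < f n) → ∀ᶠ a in residual ℝ, 1 < a → MulIndep a b ∧
      (∀ x : ℝ, 0 < x → (pairs a b x).Infinite) ∧
      {p : ℕ × ℕ | |a ^ p.1 - b ^ p.2| < f p.1}.Infinite := by
  refine ⟨?_, fun f hf => ?_⟩
  · have h := Pool.Agent.TH320.EX.dimH_law hb
    have e : {a : ℝ | 1 < a ∧ ¬ ∃ C : ℝ, ∀ x : ℝ, 2 ≤ x → (pairs a b x).Finite ∧
        |((pairs a b x).ncard : ℝ) - log x ^ 2 / (log a * log b)| ≤ C * log x} =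
        {a : ℝ | 1 < a ∧ ¬ Pool.Agent.TH320.EX.Law a b 0} := by
      ext a
      have e2 : ∀ x : ℝ, (1 / (log a * log b) + 0) * log x ^ 2 = log x ^ 2 / (log a * log b) :=
        fun x => by ring
      simp only [Set.mem_ofPred_eq, Pool.Agent.TH320.EX.Law, e2]
      rfl
    rw [e, h]
  · have h1 := Pool.Agent.TH320.EX.residual_near hb f hf
    have h2 : ∀ᶠ a in residual ℝ, ∀ k : ℕ, 1 < a → Irrational (log a / log b) ∧
        {p : ℕ × ℕ | |a ^ p.1 - b ^ p.2| < 1 / ((k : ℝ) + 1)}.Infinite := by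
      rw [eventually_countable_forall]
      intro k
      exact Pool.Agent.TH320.EX.residual_near hb (fun _ => 1 / ((k : ℝ) + 1))
        (fun _ => by positivity)
    filter_upwards [h1, h2] with a ha1 ha2 ha
    refine ⟨mulIndep_of_irrational ha hb (ha1 ha).1, fun x hx => ?_, (ha1 ha).2⟩
    obtain ⟨k, hk⟩ := exists_nat_one_div_lt hx
    refine (ha2 k ha).2.mono fun p hp => ?_
    have hp' : |a ^ p.1 - b ^ p.2| < 1 / ((k : ℝ) + 1) := hp
    exact (hp'.trans hk).le

end Pool.Agent.Results.MP_606be1_nt.ExceptionalBases
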