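import Pool.Agent.TH320.EX.Mult

/-!
MP_606be1_nt: for all bases `a, b > 1` (for instance `a = π`, `b = e`) and all multipliers `t > 0`
outside a set of Hausdorff dimension zero, the number of pairs `(n, m)` with `|a ^ n - t b ^ m| ≤ x`
is `(log x) ^ 2 / (log a log b) + O(log x)`.
-/

set_option autoImplicit false

namespace Pool.Agent.Results.MP_606be1_nt.GenericMultiplier

open Real Set

/-- The pairs of natural numbers `(n, m)` with `|a ^ n - t * b ^ m| ≤ x`. -/
def pairs (a b t x : ℝ) : Set (ℕ × ℕ) := {p | |a ^ p.1 - t * b ^ p.2| ≤ x}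

theorem result (a b : ℝ) (ha : 1 < a) (hb : 1 < b) :
    dimH {t : ℝ | 0 < t ∧ ¬ ∃ C : ℝ, ∀ x : ℝ, 2 ≤ x → (pairs a b t x).Finite ∧
      |((pairs a b t x).ncard : ℝ) - log x ^ 2 / (log a * log b)| ≤ C * log x} = 0 := by
  refine le_antisymm ?_ zero_le
  rw [← Pool.Agent.TH320.EX.dimH_infinite_TM ha hb]
  refine dimH_mono ?_
  rintro t ⟨ht, h⟩
  exact ⟨ht, fun hfin => h (Pool.Agent.TH320.EX.mult_count ha hb ht hfin)⟩

end Pool.Agent.Results.MP_606be1_nt.GenericMultiplier
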