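import Pool.Agent.TH320.EX.Fast

/-!
MP_606be1_nt: for multiplicatively independent bases `a`, `b` with all `N(x)` finite, the counting
function can be `(1 / (log a log b) + κ) (log x) ^ 2 + O(log x)` for every `κ ≥ 0`, and it can grow
faster than any given function.
-/

set_option autoImplicit false

namespace Pool.Agent.Results.MP_606be1_nt.GrowthRates

open Real Filter Set

/-- The pairs of natural numbers `(n, m)` with `|a ^ n - b ^ m| ≤ x`. -/
def pairs (a b x : ℝ) : Set (ℕ × ℕ) := {p | |a ^ p.1 - b ^ p.2| ≤ x}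

/-- Multiplicative independence. -/
def MulIndep (a b : ℝ) : Prop := ∀ i j : ℤ, a ^ i * b ^ j = 1 → i = 0 ∧ j = 0

theorem mulIndep_of_irrational {a b : ℝ} (ha : 1 < a) (hb : 1 < b)
    (h : Irrational (log a / log b)) : MulIndep a b := by
  intro i j hij
  have hla : 0 < log a := log_pos ha
  have hlb : 0 < log b := log_pos hb
  have ha0 : 0 < a := by linarith
  have hb0 : 0 < b := by linarith
  have h1 : (i : ℝ) * log a + j * log b = 0 := by
    have := congrArg log hij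
    rwa [log_mul (zpow_ne_zero _ ha0.ne') (zpow_ne_zero _ hb0.ne'), log_zpow, log_zpow,
      log_one] at this
  by_cases hi : i = 0
  · subst hi
    rw [Int.cast_zero, zero_mul, zero_add, mul_eq_zero] at h1
    refine ⟨rfl, ?_⟩
    rcases h1 with h1 | h1
    · exact_mod_cast h1
    · exact absurd h1 hlb.ne'
  · exfalso
    refine h ⟨-(j : ℚ) / i, ?_⟩
    have hi' : (i : ℝ) ≠ 0 := by exact_mod_cast hi
    push_cast
    rw [div_eq_div_iff hi' hlb.ne']
    linarith

theorem result (b : ℝ) (hb : 1 < b) (u v : ℝ) (hu : 1 ≤ u) (huv : u < v) :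
    (∀ κ : ℝ, 0 ≤ κ → ∃ a ∈ Ioo u v, MulIndep a b ∧
      ∃ C : ℝ, ∀ x : ℝ, 2 ≤ x → (pairs a b x).Finite ∧
        |((pairs a b x).ncard : ℝ) - (1 / (log a * log b) + κ) * log x ^ 2| ≤ C * log x) ∧
    (∀ Φ : ℝ → ℝ, Monotone Φ → ∃ a ∈ Ioo u v, MulIndep a b ∧
      (∀ x : ℝ, (pairs a b x).Finite) ∧ ∀ᶠ x in atTop, Φ x ≤ ((pairs a b x).ncard : ℝ)) := by
  refine ⟨fun κ hκ => ?_, fun Φ hΦ => ?_⟩
  · obtain ⟨a, ha, hirr, hl⟩ := Pool.Agent.TH320.EX.law_nonneg hb hκ hu huv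
    exact ⟨a, ha, mulIndep_of_irrational (lt_of_le_of_lt hu ha.1) hb hirr, hl⟩
  · obtain ⟨a, ha, hirr, h1, h2⟩ := Pool.Agent.TH320.EX.fast hb hΦ hu huv
    exact ⟨a, ha, mulIndep_of_irrational (lt_of_le_of_lt hu ha.1) hb hirr, h1, h2⟩

end Pool.Agent.Results.MP_606be1_nt.GrowthRates
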