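import Pool.Agent.TH709.NC.Lines

/-!
# The asymptotic for near-coincidences holds off a very thin set of lines

Let `a, b > 1` be real numbers (`a = π`, `b = e` in the problem). The number of pairs `(n, m)` with
`|a ^ n - b ^ m| ≤ x` which do not lie on one of few lines through the origin is
`(log x) ^ 2 / (log a * log b) + O(log x)`. The lines are given by a set `L` of pairs of coprime
numbers, independent of `x`, and `L` has at most `h + C` members with `n` at most the tower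
`2 ^ 2 ^ ... ^ 2` of height `h`.
-/

set_option autoImplicit false

namespace Pool.Agent.Results.MP_606be1_nt.OffFewLines

open Real

/-- the tower `2 ^ 2 ^ ... ^ 2` of height `h` -/
def tower : ℕ → ℕ
  | 0 => 1
  | h + 1 => 2 ^ tower h

/-- `p` is a multiple of a member of `L` -/
def OnLine (L : Set (ℕ × ℕ)) (p : ℕ × ℕ) : Prop := ∃ l ∈ L, ∃ g : ℕ, p = (g * l.1, g * l.2)

/-- the pairs `(n, m)` with `|a ^ n - b ^ m| ≤ x` which are not multiples of members of `L` -/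
def pairsOff (L : Set (ℕ × ℕ)) (a b x : ℝ) : Set (ℕ × ℕ) :=
  {p | |a ^ p.1 - b ^ p.2| ≤ x ∧ ¬ OnLine L p}

theorem tower_eq (h : ℕ) : tower h = Pool.Agent.TH709.NC.tow h := by
  induction h with
  | zero => rfl
  | succ h ih => rw [tower, Pool.Agent.TH709.NC.tow, ih]

theorem result (a b : ℝ) (ha : 1 < a) (hb : 1 < b) :
    ∃ (L : Set (ℕ × ℕ)) (C : ℝ),
      -- the members of `L` are primitive near misses
      (∀ l ∈ L, 1 ≤ l.1 ∧ l.1.Coprime l.2 ∧ |a ^ l.1 - b ^ l.2| ^ 2 < a ^ l.1) ∧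
      -- `L` is very thin
      (∀ h : ℕ, {l | l ∈ L ∧ l.1 ≤ tower h}.Finite ∧
        (({l | l ∈ L ∧ l.1 ≤ tower h}.ncard : ℕ) : ℝ) ≤ h + C) ∧
      -- the asymptotic off the lines
      ∀ x : ℝ, 2 ≤ x → (pairsOff L a b x).Finite ∧
        |((pairsOff L a b x).ncard : ℝ) - log x ^ 2 / (log a * log b)| ≤ C * log x := by
  obtain ⟨C₁, h1⟩ := Pool.Agent.TH709.NC.thin ha hb
  obtain ⟨C₂, hC₂, h2⟩ := Pool.Agent.TH709.NC.off_count ha hb
  refine ⟨Pool.Agent.TH709.NC.LL a b, max C₁ C₂, fun l hl => hl, fun h => ⟨?_, ?_⟩,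
    fun x hx => ?_⟩
  · exact Pool.Agent.TH709.NC.LL_fin ha hb (tower h)
  · rw [tower_eq]
    have h3 : (({l | l ∈ Pool.Agent.TH709.NC.LL a b ∧
        l.1 ≤ Pool.Agent.TH709.NC.tow h}.ncard : ℕ) : ℝ) ≤ h + C₁ := by
      exact_mod_cast h1 h
    have h4 : (C₁ : ℝ) ≤ max (C₁ : ℝ) C₂ := le_max_left _ _
    linarith
  · obtain ⟨h3, h4⟩ := h2 x hx
    refine ⟨h3, ?_⟩
    have h5 : C₂ ≤ max (C₁ : ℝ) C₂ := le_max_right _ _
    have h6 : 0 ≤ log x := log_nonneg (by linarith)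
    exact h4.trans (mul_le_mul_of_nonneg_right h5 h6)

end Pool.Agent.Results.MP_606be1_nt.OffFewLines
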